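import Mathlib
import Pool.Agent.Q93.BM.Stm

/-!
# Project BM, job GREEN: normalised arc length is `dd^c log⁺ |z|`
-/

set_option autoImplicit false

open MeasureTheory Set Filter Topology Real Laplacian

namespace Pool.Agent.Q166.BM

/-- The Laplacian in rotated coordinates. -/
lemma lap_rot {φ : ℂ → ℝ} (z : ℂ) (θ : ℝ) :
    Δ φ z = fderiv ℝ (fderiv ℝ φ) z (circleMap 0 1 θ) (circleMap 0 1 θ) +
      fderiv ℝ (fderiv ℝ φ) z (Complex.I * circleMap 0 1 θ) (Complex.I * circleMap 0 1 θ) := by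
  have h0 : Δ φ z = fderiv ℝ (fderiv ℝ φ) z 1 1 + fderiv ℝ (fderiv ℝ φ) z Complex.I Complex.I := by
    rw [InnerProductSpace.laplacian_eq_iteratedFDeriv_complexPlane]
    simp only [iteratedFDeriv_two_apply]
    simp
  have h1 : circleMap 0 1 θ = (Real.cos θ) • (1 : ℂ) + (Real.sin θ) • Complex.I := by
    rw [circleMap, zero_add, Complex.ofReal_one, one_mul, Complex.exp_mul_I]
    simp
  have h2 : Complex.I * circleMap 0 1 θ =
      (-Real.sin θ) • (1 : ℂ) + (Real.cos θ) • Complex.I := by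
    rw [h1]
    simp only [Complex.real_smul, mul_add, mul_one, Complex.ofReal_neg]
    linear_combination (Real.sin θ : ℂ) * Complex.I_mul_I
  rw [h0, h2, h1]
  simp only [map_add, map_smul, add_apply, smul_apply,
    smul_eq_mul]
  have := Real.sin_sq_add_cos_sq θ
  linear_combination -(fderiv ℝ (fderiv ℝ φ) z 1 1 +
    fderiv ℝ (fderiv ℝ φ) z Complex.I Complex.I) * this

/-- The radial part. -/
noncomputable def G1 (φ : ℂ → ℝ) (r θ : ℝ) : ℝ :=
  log⁺ r * (fderiv ℝ φ (circleMap 0 r θ) (circleMap 0 1 θ) +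
    r * fderiv ℝ (fderiv ℝ φ) (circleMap 0 r θ) (circleMap 0 1 θ) (circleMap 0 1 θ))

/-- The angular part. -/
noncomputable def G2 (φ : ℂ → ℝ) (r θ : ℝ) : ℝ :=
  log⁺ r * (r * fderiv ℝ (fderiv ℝ φ) (circleMap 0 r θ) (Complex.I * circleMap 0 1 θ)
    (Complex.I * circleMap 0 1 θ) - fderiv ℝ φ (circleMap 0 r θ) (circleMap 0 1 θ))

lemma G_add (φ : ℂ → ℝ) (r θ : ℝ) :
    r * (log⁺ r * Δ φ (circleMap 0 r θ)) = G1 φ r θ + G2 φ r θ := by
  rw [lap_rot _ θ, G1, G2]
  ring

lemma cont_cm : Continuous fun p : ℝ × ℝ => circleMap 0 p.1 p.2 := by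
  unfold circleMap
  fun_prop

section

variable {φ : ℂ → ℝ} (hφ : ContDiff ℝ (⊤ : ℕ∞) φ)

include hφ

lemma c1 : Continuous (fderiv ℝ φ) := hφ.continuous_fderiv (by simp)

lemma cd1 : ContDiff ℝ (⊤ : ℕ∞) (fderiv ℝ φ) := hφ.fderiv_right (by simp)

lemma c2 : Continuous (fderiv ℝ (fderiv ℝ φ)) := (cd1 hφ).continuous_fderiv (by simp)

lemma h1 (z : ℂ) : HasFDerivAt φ (fderiv ℝ φ z) z :=
  (hφ.differentiable (by simp) z).hasFDerivAt

lemma h2 (z : ℂ) : HasFDerivAt (fderiv ℝ φ) (fderiv ℝ (fderiv ℝ φ) z) z :=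
  ((cd1 hφ).differentiable (by simp) z).hasFDerivAt

lemma cont_G1 : Continuous fun p : ℝ × ℝ => G1 φ p.1 p.2 := by
  unfold G1
  have a1 := (c1 hφ).comp cont_cm
  have a2 := (c2 hφ).comp cont_cm
  have a3 : Continuous fun p : ℝ × ℝ => circleMap 0 1 p.2 := by
    unfold circleMap; fun_prop
  have a4 := Real.continuous_posLog.comp (continuous_fst (X := ℝ) (Y := ℝ))
  exact a4.mul ((a1.clm_apply a3).add (continuous_fst.mul ((a2.clm_apply a3).clm_apply a3)))

lemma cont_G2 : Continuous fun p : ℝ × ℝ => G2 φ p.1 p.2 := by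
  unfold G2
  have a1 := (c1 hφ).comp cont_cm
  have a2 := (c2 hφ).comp cont_cm
  have a3 : Continuous fun p : ℝ × ℝ => circleMap 0 1 p.2 := by
    unfold circleMap; fun_prop
  have a4 := Real.continuous_posLog.comp (continuous_fst (X := ℝ) (Y := ℝ))
  have a5 : Continuous fun p : ℝ × ℝ => Complex.I * circleMap 0 1 p.2 := continuous_const.mul a3
  exact a4.mul ((continuous_fst.mul ((a2.clm_apply a5).clm_apply a5)).sub (a1.clm_apply a3))

omit hφ in
lemma hr (θ r : ℝ) : HasDerivAt (fun r => circleMap 0 r θ) (circleMap 0 1 θ) r := by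
  have : HasDerivAt (fun r : ℝ => (r : ℂ) * Complex.exp (θ * Complex.I))
      (1 * Complex.exp (θ * Complex.I)) r :=
    (Complex.ofRealCLM.hasDerivAt (x := r)).mul_const _
  simpa [circleMap] using this

/-- The integral of the radial part. -/
lemma int_G1 (θ R : ℝ) (hR : 1 < R) (h0 : φ (circleMap 0 R θ) = 0)
    (h0' : fderiv ℝ φ (circleMap 0 R θ) = 0) :
    ∫ r in (1 : ℝ)..R, G1 φ r θ = φ (circleMap 0 1 θ) := by
  have hd : ∀ r ∈ uIcc 1 R, HasDerivAt (fun r => Real.log r *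
      (r * fderiv ℝ φ (circleMap 0 r θ) (circleMap 0 1 θ)) - φ (circleMap 0 r θ)) (G1 φ r θ) r := by
    intro r hr'
    rw [uIcc_of_le hR.le] at hr'
    have hr1 : 1 ≤ r := hr'.1
    have hr0 : r ≠ 0 := by linarith
    have e1 : HasDerivAt (fun r => φ (circleMap 0 r θ))
        (fderiv ℝ φ (circleMap 0 r θ) (circleMap 0 1 θ)) r :=
      (h1 hφ _).comp_hasDerivAt r (hr θ r)
    have e2 : HasDerivAt (fun r => fderiv ℝ φ (circleMap 0 r θ) (circleMap 0 1 θ))
        (fderiv ℝ (fderiv ℝ φ) (circleMap 0 r θ) (circleMap 0 1 θ) (circleMap 0 1 θ)) r := by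
      have e3 := (h2 hφ (circleMap 0 r θ)).comp_hasDerivAt r (hr θ r)
      have e4 := e3.clm_apply (hasDerivAt_const r (circleMap 0 1 θ))
      simpa using e4
    have e5 := (Real.hasDerivAt_log hr0).mul ((hasDerivAt_id r).mul e2)
    have e6 := e5.sub e1
    refine e6.congr_deriv ?_
    simp only [G1, id, Pi.mul_apply]
    rw [Real.posLog_eq_log (by rw [abs_of_pos (by linarith)]; exact hr1)]
    field_simp
    ring
  rw [intervalIntegral.integral_eq_sub_of_hasDerivAt hd]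
  · rw [h0, h0', Real.log_one]
    simp
  · exact ((cont_G1 hφ).comp (by fun_prop : Continuous fun r : ℝ => (r, θ))).intervalIntegrable _ _

/-- The integral of the angular part. -/
lemma int_G2 (r : ℝ) (hr0 : 0 < r) : ∫ θ in (-π)..π, G2 φ r θ = 0 := by
  have hd : ∀ θ ∈ uIcc (-π) π, HasDerivAt (fun θ => log⁺ r / r *
      fderiv ℝ φ (circleMap 0 r θ) (circleMap 0 r θ * Complex.I)) (G2 φ r θ) θ := by
    intro θ _
    have e0 := hasDerivAt_circleMap 0 r θ
    have e3 := (h2 hφ (circleMap 0 r θ)).comp_hasDerivAt θ e0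
    have e4 := (e3.clm_apply (e0.mul_const Complex.I)).const_mul (log⁺ r / r)
    refine e4.congr_deriv ?_
    have k1 : circleMap 0 r θ * Complex.I = r • (Complex.I * circleMap 0 1 θ) := by
      simp only [circleMap, Complex.real_smul, zero_add, Complex.ofReal_one, one_mul]
      ring
    have k2 : circleMap 0 r θ * Complex.I * Complex.I = -(r • circleMap 0 1 θ) := by
      rw [mul_assoc, Complex.I_mul_I]
      simp only [circleMap, Complex.real_smul, zero_add, Complex.ofReal_one, one_mul]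
      ring
    rw [k2, k1, G2]
    simp only [map_smul, smul_apply, smul_eq_mul, map_neg, Function.comp]
    field_simp
    ring
  rw [intervalIntegral.integral_eq_sub_of_hasDerivAt hd]
  · have : circleMap 0 r π = circleMap 0 r (-π) := by
      have := periodic_circleMap 0 r (-π)
      rw [← this]
      congr 1
      ring
    rw [this, sub_self]
  · exact ((cont_G2 hφ).comp (by fun_prop : Continuous fun θ : ℝ => (r, θ))).intervalIntegrable _ _

end

/-- Job GREEN. -/
theorem green : Pool.Agent.Q93.BM.S_GREEN := by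
  intro φ hφ hc
  -- the support
  obtain ⟨R0, hR0⟩ := hc.isCompact.isBounded.subset_ball (0 : ℂ)
  set R := max R0 2 with hR
  have hR1 : 1 < R := lt_of_lt_of_le (by norm_num) (le_max_right _ _)
  have hnt : ∀ z : ℂ, R ≤ ‖z‖ → z ∉ tsupport φ := by
    intro z hz hz'
    have := hR0 hz'
    rw [mem_ball_zero_iff] at this
    exact absurd ((le_max_left R0 2).trans hz) (not_le.2 this)
  have z0 : ∀ z : ℂ, R ≤ ‖z‖ → φ z = 0 := fun z hz => image_eq_zero_of_notMem_tsupport (hnt z hz)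
  have z1 : ∀ z : ℂ, R ≤ ‖z‖ → fderiv ℝ φ z = 0 := by
    intro z hz
    by_contra h
    exact hnt z hz (support_fderiv_subset ℝ (Function.mem_support.2 h))
  have hts : tsupport (fderiv ℝ φ) ⊆ tsupport φ :=
    closure_minimal (support_fderiv_subset ℝ) (isClosed_tsupport φ)
  have z2 : ∀ z : ℂ, R ≤ ‖z‖ → fderiv ℝ (fderiv ℝ φ) z = 0 := by
    intro z hz
    by_contra h
    exact hnt z hz (hts (support_fderiv_subset ℝ (Function.mem_support.2 h)))
  have zl : ∀ z : ℂ, R ≤ ‖z‖ → Δ φ z = 0 := by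
    intro z hz
    rw [lap_rot z 0, z2 z hz]
    simp
  -- polar coordinates
  have e1 : ∫ z, log⁺ ‖z‖ * Δ φ z = ∫ p in Ioi (0 : ℝ) ×ˢ Ioo (-π) π,
      p.1 * (log⁺ p.1 * Δ φ (circleMap 0 p.1 p.2)) := by
    rw [← Complex.integral_comp_polarCoord_symm]
    refine setIntegral_congr_fun (measurableSet_Ioi.prod measurableSet_Ioo) ?_
    rintro ⟨r, θ⟩ ⟨hr, _⟩
    have hr' : 0 < r := hr
    have k : Complex.polarCoord.symm (r, θ) = circleMap 0 r θ := by
      rw [Complex.polarCoord_symm_apply, circleMap, zero_add, Complex.exp_mul_I]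
      simp
    simp only [k, smul_eq_mul]
    rw [norm_circleMap_zero, abs_of_pos hr']
  have e2 : ∫ p in Ioi (0 : ℝ) ×ˢ Ioo (-π) π, p.1 * (log⁺ p.1 * Δ φ (circleMap 0 p.1 p.2)) =
      ∫ p in Ioc (1 : ℝ) R ×ˢ Ioo (-π) π, p.1 * (log⁺ p.1 * Δ φ (circleMap 0 p.1 p.2)) := by
    refine setIntegral_eq_of_subset_of_forall_sdiff_eq_zero
      (measurableSet_Ioi.prod measurableSet_Ioo) ?_ ?_
    · rintro ⟨r, θ⟩ ⟨h, h'⟩
      exact ⟨lt_trans zero_lt_one h.1, h'⟩
    · rintro ⟨r, θ⟩ ⟨⟨h, h'⟩, h2⟩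
      have hr0 : 0 < r := h
      by_cases h3 : r ≤ 1
      · have : log⁺ r = 0 := (Real.posLog_eq_zero_iff r).2 (by rw [abs_of_pos hr0]; exact h3)
        simp only [this, zero_mul, mul_zero]
      · have h4 : R ≤ r := by
          by_contra hc
          exact h2 ⟨⟨not_le.1 h3, (not_le.1 hc).le⟩, h'⟩
        simp only
        rw [zl (circleMap 0 r θ) (by rw [norm_circleMap_zero, abs_of_pos hr0]; exact h4)]
        simp
  have hint : ∀ F : ℝ × ℝ → ℝ, Continuous F →
      IntegrableOn F (Ioc (1 : ℝ) R ×ˢ Ioo (-π) π) (volume.prod volume) := by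
    intro F hF
    exact (hF.continuousOn.integrableOn_compact
      ((isCompact_Icc (a := (1 : ℝ)) (b := R)).prod (isCompact_Icc (a := -π) (b := π)))).mono_set
      (prod_mono Ioc_subset_Icc_self Ioo_subset_Icc_self)
  have e3 : ∫ p in Ioc (1 : ℝ) R ×ˢ Ioo (-π) π, p.1 * (log⁺ p.1 * Δ φ (circleMap 0 p.1 p.2)) =
      (∫ p in Ioc (1 : ℝ) R ×ˢ Ioo (-π) π, G1 φ p.1 p.2) +
        ∫ p in Ioc (1 : ℝ) R ×ˢ Ioo (-π) π, G2 φ p.1 p.2 := by
    simp only [G_add]
    exact integral_add (hint _ (cont_G1 hφ)) (hint _ (cont_G2 hφ))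
  have e4 : ∫ p in Ioc (1 : ℝ) R ×ˢ Ioo (-π) π, G2 φ p.1 p.2 = 0 := by
    rw [Measure.volume_eq_prod, setIntegral_prod _ (hint _ (cont_G2 hφ))]
    have : ∀ r ∈ Ioc (1 : ℝ) R, ∫ θ in Ioo (-π) π, G2 φ r θ = 0 := by
      intro r hr
      rw [← integral_Ioc_eq_integral_Ioo, ← intervalIntegral.integral_of_le (by linarith [pi_pos])]
      exact int_G2 hφ r (lt_trans zero_lt_one hr.1)
    rw [setIntegral_congr_fun measurableSet_Ioc this]
    simp
  have e5 : ∫ p in Ioc (1 : ℝ) R ×ˢ Ioo (-π) π, G1 φ p.1 p.2 =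
      ∫ θ in (-π)..π, φ (circleMap 0 1 θ) := by
    rw [intervalIntegral.integral_of_le (by linarith [pi_pos]), integral_Ioc_eq_integral_Ioo]
    rw [Measure.volume_eq_prod]
    have h5 := hint _ (cont_G1 hφ)
    rw [IntegrableOn, ← Measure.prod_restrict] at h5
    rw [← Measure.prod_restrict, integral_prod_symm _ h5]
    refine integral_congr_ae (Filter.Eventually.of_forall fun θ => ?_)
    simp only
    rw [← intervalIntegral.integral_of_le hR1.le]
    exact int_G1 hφ θ R hR1 (z0 _ (by rw [norm_circleMap_zero, abs_of_pos (by linarith)]))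
      (z1 _ (by rw [norm_circleMap_zero, abs_of_pos (by linarith)]))
  rw [e1, e2, e3, e4, e5, add_zero, Real.circleAverage, smul_eq_mul]
  congr 1
  have hper : Function.Periodic (fun θ => φ (circleMap 0 1 θ)) (2 * π) := by
    intro θ
    simp only [periodic_circleMap 0 1 θ]
  have := hper.intervalIntegral_add_eq 0 (-π)
  rw [zero_add] at this
  rw [this]
  congr 1
  ring

end Pool.Agent.Q166.BM
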