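import Mathlib
import Pool.Agent.Q93.BM.Stm

/-!
# Project BM, job VK: the extremal function of the unit circle
-/

set_option autoImplicit false

open MeasureTheory Set Filter Topology Real

namespace Pool.Agent.Q166.BM

open Pool.Agent.Q93.BM

lemma ci {f : ℂ → ℝ} (hf : Continuous f) (z : ℂ) (r : ℝ) : CircleIntegrable f z r :=
  ContinuousOn.circleIntegrable' hf.continuousOn

/-! ### lower bound -/

lemma mean_log (z : ℂ) {r : ℝ} (hr : 0 < r) :
    Real.circleAverage (fun ζ => Real.log ‖ζ‖) z r = Real.log r + log⁺ (r⁻¹ * ‖z‖) := by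
  have := circleAverage_log_norm_sub_const_eq_log_radius_add_posLog (a := 0) (c := z) (R := r)
    hr.ne'
  simpa using this

lemma cont_pl : Continuous fun ζ : ℂ => log⁺ ‖ζ‖ := Real.continuous_posLog.comp continuous_norm

lemma sub_posLog (z : ℂ) {r : ℝ} (hr : 0 < r) :
    log⁺ ‖z‖ ≤ Real.circleAverage (fun ζ => log⁺ ‖ζ‖) z r := by
  have h0 : 0 ≤ Real.circleAverage (fun ζ => log⁺ ‖ζ‖) z r :=
    circleAverage_nonneg_of_nonneg fun ζ _ => Real.posLog_nonneg
  by_cases h1 : ‖z‖ ≤ 1
  · have : log⁺ ‖z‖ = 0 := (Real.posLog_eq_zero_iff _).2 (by rwa [abs_of_nonneg (norm_nonneg _)])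
    rw [this]
    exact h0
  · have h1' : 1 < ‖z‖ := not_le.1 h1
    have h2 : log⁺ ‖z‖ = Real.log ‖z‖ :=
      Real.posLog_eq_log (by rw [abs_of_nonneg (norm_nonneg _)]; exact h1'.le)
    have h3 : CircleIntegrable (fun ζ : ℂ => Real.log ‖ζ‖) z r := by
      have := circleIntegrable_log_norm_sub_const (a := 0) (c := z) r
      simpa using this
    have h4 := circleAverage_mono h3 (ci cont_pl z r) fun ζ _ => by
      rw [Real.posLog_def]
      exact le_max_right _ _
    rw [mean_log z hr] at h4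
    have h5 : Real.log (r⁻¹ * ‖z‖) ≤ log⁺ (r⁻¹ * ‖z‖) := by
      rw [Real.posLog_def]
      exact le_max_right _ _
    rw [Real.log_mul (inv_ne_zero hr.ne') (by linarith), Real.log_inv] at h5
    linarith

lemma sh_posLog : IsSubharmonic fun z => ((log⁺ ‖z‖ : ℝ) : EReal) where
  lt_top z := EReal.coe_lt_top _
  usc := (continuous_coe_real_ereal.comp cont_pl).upperSemicontinuous
  submean z r hr g hg h := by
    rw [EReal.coe_le_coe_iff]
    refine (sub_posLog z hr).trans (circleAverage_mono (ci cont_pl z r) (ci hg z r) ?_)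
    intro ζ hζ
    rw [abs_of_pos hr, mem_sphere_iff_norm] at hζ
    exact EReal.coe_le_coe_iff.1 (h ζ hζ)

/-! ### the maximum principle -/

lemma e_le (u : EReal) (c h : ℝ) : u + ((-h : ℝ) : EReal) ≤ (c : EReal) ↔
    u ≤ ((c + h : ℝ) : EReal) := by
  induction u with
  | bot => simp
  | top =>
    rw [EReal.top_add_coe, top_le_iff, top_le_iff]
    exact ⟨fun h' => absurd h' (EReal.coe_ne_top _), fun h' => absurd h' (EReal.coe_ne_top _)⟩
  | coe x =>
    rw [← EReal.coe_add, EReal.coe_le_coe_iff, EReal.coe_le_coe_iff]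
    constructor <;> intro h <;> linarith

lemma e_lt (u : EReal) (c h : ℝ) : u + ((-h : ℝ) : EReal) < (c : EReal) ↔
    u < ((c + h : ℝ) : EReal) := by
  induction u with
  | bot => simp [EReal.bot_lt_coe]
  | top =>
    rw [EReal.top_add_coe]
    exact ⟨fun h' => absurd h' not_top_lt, fun h' => absurd h' not_top_lt⟩
  | coe x =>
    rw [← EReal.coe_add, EReal.coe_lt_coe_iff, EReal.coe_lt_coe_iff]
    constructor <;> intro h <;> linarith

lemma usc_sub {u : ℂ → EReal} (hu : UpperSemicontinuous u) {h : ℂ → ℝ} (hh : Continuous h) :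
    UpperSemicontinuous fun ζ => u ζ + ((-h ζ : ℝ) : EReal) := by
  intro ζ0 y hy
  obtain ⟨c, hc1, hc2⟩ := EReal.lt_iff_exists_real_btwn.1 hy
  rw [e_lt] at hc1
  obtain ⟨c', hc3, hc4⟩ := EReal.lt_iff_exists_real_btwn.1 hc1
  rw [EReal.coe_lt_coe_iff] at hc4
  have h1 := hu ζ0 _ hc3
  have h2 : ∀ᶠ ζ in 𝓝 ζ0, c' < c + h ζ :=
    (continuous_const.add hh).continuousAt.eventually (lt_mem_nhds hc4)
  filter_upwards [h1, h2] with ζ h3 h4
  refine lt_trans ?_ hc2
  rw [e_lt]
  exact h3.trans (EReal.coe_lt_coe_iff.2 h4)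

/-- The maximum principle. -/
lemma maxp {u : ℂ → EReal} (hu : IsSubharmonic u) {h : ℂ → ℝ} (hh : Continuous h) {K G : Set ℂ}
    (hK : IsCompact K) (hG : IsOpen G) (hGK : G ⊆ K)
    (hmv : ∀ z ∈ G, ∃ ρ > 0, ∀ r, 0 < r → r < ρ → Real.circleAverage h z r = h z)
    (hb : ∀ ζ ∈ K, ζ ∉ G → u ζ ≤ (h ζ : EReal)) : ∀ ζ ∈ K, u ζ ≤ (h ζ : EReal) := by
  intro ζ1 hζ1
  by_contra hc
  have hw := usc_sub hu.usc hh
  set w : ℂ → EReal := fun ζ => u ζ + ((-h ζ : ℝ) : EReal) with hwdef
  obtain ⟨a, ha, hmax⟩ := (hw.upperSemicontinuousOn K).exists_isMaxOn ⟨ζ1, hζ1⟩ hK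
  have hw1 : ¬ w ζ1 ≤ ((0 : ℝ) : EReal) := by
    rw [hwdef]
    simp only
    rw [e_le, zero_add]
    exact hc
  have hwa : ((0 : ℝ) : EReal) < w a := lt_of_lt_of_le (not_le.1 hw1) (hmax hζ1)
  have hwt : w a < ⊤ := by
    have h1 := hu.lt_top a
    rw [hwdef]
    simp only
    exact EReal.add_lt_top h1.ne (EReal.coe_ne_top _)
  obtain ⟨m, hm⟩ : ∃ m : ℝ, w a = (m : EReal) := by
    refine ⟨(w a).toReal, (EReal.coe_toReal hwt.ne ?_).symm⟩
    intro hbot
    rw [hbot] at hwa
    exact absurd hwa (by simp)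
  rw [hm, EReal.coe_lt_coe_iff] at hwa
  have hle : ∀ ζ ∈ K, u ζ ≤ ((m + h ζ : ℝ) : EReal) := by
    intro ζ hζ
    rw [← e_le, ← hm]
    exact hmax hζ
  -- the set of maximum points
  set A := K ∩ {ζ | (m : EReal) ≤ w ζ} with hA
  have hAc : IsCompact A := by
    refine hK.inter_right ?_
    have : {ζ | (m : EReal) ≤ w ζ} = w ⁻¹' Ici (m : EReal) := rfl
    rw [this]
    exact hw.isClosed_preimage _
  have hAn : A.Nonempty := ⟨a, ha, by show (m : EReal) ≤ w a; rw [hm]⟩
  obtain ⟨z, hzA, hzmax⟩ := hAc.exists_isMaxOn hAn Complex.continuous_re.continuousOn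
  have hzG : z ∈ G := by
    by_contra hzG
    have h1 := hb z hzA.1 hzG
    have h2 : w z ≤ ((0 : ℝ) : EReal) := by
      rw [hwdef]
      simp only
      rw [e_le, zero_add]
      exact h1
    have h3 := hzA.2.trans h2
    rw [EReal.coe_le_coe_iff] at h3
    linarith
  obtain ⟨ρ, hρ, hmv⟩ := hmv z hzG
  obtain ⟨ρ', hρ', hball⟩ := Metric.isOpen_iff.1 hG z hzG
  set r := min ρ ρ' / 2 with hr
  have hr0 : 0 < r := by rw [hr]; have := lt_min hρ hρ'; linarith
  have hrρ : r < ρ := by rw [hr]; have := min_le_left ρ ρ'; have := lt_min hρ hρ'; linarith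
  have hrρ' : r < ρ' := by rw [hr]; have := min_le_right ρ ρ'; have := lt_min hρ hρ'; linarith
  have hcirc : ∀ ζ : ℂ, ‖ζ - z‖ = r → ζ ∈ G := fun ζ hζ => hball (by
    rw [mem_ball_iff_norm, hζ]; exact hrρ')
  -- the point on the right
  set ζ0 : ℂ := z + r with hζ0
  have hζ0n : ‖ζ0 - z‖ = r := by
    rw [hζ0, add_sub_cancel_left, Complex.norm_real, Real.norm_eq_abs, abs_of_pos hr0]
  have hζ0w : w ζ0 < (m : EReal) := by
    by_contra hcon
    have h1 : ζ0 ∈ A := ⟨hGK (hcirc ζ0 hζ0n), not_lt.1 hcon⟩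
    have h2 : ζ0.re ≤ z.re := hzmax h1
    rw [hζ0] at h2
    simp only [Complex.add_re, Complex.ofReal_re] at h2
    linarith
  obtain ⟨c, hc1, hc2⟩ := EReal.lt_iff_exists_real_btwn.1 hζ0w
  rw [EReal.coe_lt_coe_iff] at hc2
  obtain ⟨δ, hδ, hδ2⟩ := Metric.eventually_nhds_iff.1 (hw ζ0 _ hc1)
  set bump : ℂ → ℝ := fun ζ => max 0 (1 - dist ζ ζ0 / δ) with hbump
  have hbc : Continuous bump := by
    rw [hbump]
    exact continuous_const.max (continuous_const.sub
      ((continuous_id.dist continuous_const).div_const _))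
  have hb0 : ∀ ζ, 0 ≤ bump ζ := fun ζ => le_max_left _ _
  have hb1 : ∀ ζ, bump ζ ≤ 1 := fun ζ => by
    refine max_le zero_le_one ?_
    have : 0 ≤ dist ζ ζ0 / δ := div_nonneg dist_nonneg hδ.le
    linarith
  set g : ℂ → ℝ := fun ζ => h ζ + m - (m - c) * bump ζ with hg
  have hgc : Continuous g := (hh.add continuous_const).sub (continuous_const.mul hbc)
  have hug : ∀ ζ, ‖ζ - z‖ = r → u ζ ≤ (g ζ : EReal) := by
    intro ζ hζ
    by_cases hd : dist ζ ζ0 < δ
    · have h1 := hδ2 hd
      have h2 : u ζ < ((c + h ζ : ℝ) : EReal) := by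
        rw [← e_lt]
        exact h1
      refine h2.le.trans ?_
      rw [EReal.coe_le_coe_iff, hg]
      simp only
      have := mul_le_mul_of_nonneg_left (hb1 ζ) (sub_nonneg.2 hc2.le)
      linarith
    · have h1 : bump ζ = 0 := by
        rw [hbump]
        simp only
        refine max_eq_left ?_
        have : 1 ≤ dist ζ ζ0 / δ := by
          rw [le_div_iff₀ hδ, one_mul]
          exact not_lt.1 hd
        linarith
      refine (hle ζ (hGK (hcirc ζ hζ))).trans ?_
      rw [EReal.coe_le_coe_iff, hg]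
      simp only
      rw [h1]
      linarith
  have h1 := hu.submean z r hr0 g hgc hug
  have h2 : Real.circleAverage g z r = h z + m - (m - c) * Real.circleAverage bump z r := by
    rw [hg]
    have i1 : CircleIntegrable (fun ζ => h ζ + m) z r := ci (hh.add continuous_const) z r
    have i2 : CircleIntegrable (fun ζ => (m - c) * bump ζ) z r :=
      ci (continuous_const.mul hbc) z r
    have i3 : CircleIntegrable (fun _ : ℂ => m) z r := ci continuous_const z r
    rw [circleAverage_fun_sub i1 i2, circleAverage_fun_add (ci hh z r) i3,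
      circleAverage_const, hmv r hr0 hrρ]
    congr 1
    exact circleAverage_fun_smul (a := (m - c)) (f := bump)
  have h3 : 0 < Real.circleAverage bump z r := by
    rw [circleAverage_def, smul_eq_mul]
    refine mul_pos (by positivity) ?_
    refine intervalIntegral.integral_pos (by positivity)
      (hbc.comp (continuous_circleMap z r)).continuousOn (fun θ _ => hb0 _) ⟨0, ?_, ?_⟩
    · exact ⟨le_rfl, by positivity⟩
    · have : circleMap z r 0 = ζ0 := by simp [circleMap, hζ0]
      rw [this, hbump]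
      simp
  have h4 : ((m : ℝ) : EReal) ≤ w z := hzA.2
  have h5 : u z < ((h z + m : ℝ) : EReal) := by
    refine lt_of_le_of_lt h1 ?_
    rw [EReal.coe_lt_coe_iff, h2]
    have := mul_pos (sub_pos.2 hc2) h3
    linarith
  have h6 : w z < (m : EReal) := by
    rw [hwdef]
    simp only
    rw [e_lt, add_comm]
    exact h5
  exact absurd h4 (not_le.2 h6)

/-- Job VK. -/
theorem vk : S_VK := by
  intro z
  refine le_antisymm ?_ ?_
  · refine iSup₂_le fun u hu => ?_
    obtain ⟨hu, ⟨C, hC⟩, h0⟩ := hu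
    by_cases hz : ‖z‖ ≤ 1
    · have hpl : log⁺ ‖z‖ = 0 :=
        (Real.posLog_eq_zero_iff _).2 (by rwa [abs_of_nonneg (norm_nonneg _)])
      rw [hpl]
      refine maxp hu (h := fun _ => 0) continuous_const (K := Metric.closedBall 0 1)
        (G := Metric.ball 0 1) (isCompact_closedBall _ _) Metric.isOpen_ball
        Metric.ball_subset_closedBall ?_ ?_ z (by simpa using hz)
      · intro z _
        exact ⟨1, one_pos, fun r _ _ => circleAverage_const _ _ _⟩
      · intro ζ h1 h2
        have h3 : ζ ∈ Metric.sphere (0 : ℂ) 1 := by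
          rw [mem_sphere_zero_iff_norm]
          rw [mem_closedBall_zero_iff] at h1
          rw [mem_ball_zero_iff, not_lt] at h2
          exact le_antisymm h1 h2
        exact h0 ζ h3
    · have hz1 : 1 < ‖z‖ := not_le.1 hz
      have hpl : ∀ ζ : ℂ, 1 ≤ ‖ζ‖ → log⁺ ‖ζ‖ = Real.log ‖ζ‖ := fun ζ hζ =>
        Real.posLog_eq_log (by rw [abs_of_nonneg (norm_nonneg _)]; exact hζ)
      have hpos : 0 < log⁺ ‖z‖ := by
        rw [hpl z hz1.le]
        exact Real.log_pos hz1
      have key : ∀ ε : ℝ, 0 < ε → u z ≤ (((1 + ε) * log⁺ ‖z‖ : ℝ) : EReal) := by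
        intro ε hε
        -- a large radius
        obtain ⟨R, hR1, hR2, hR3⟩ : ∃ R : ℝ, 1 < R ∧ ‖z‖ < R ∧ C ≤ ε * Real.log R := by
          have h1 : Tendsto (fun R : ℝ => ε * Real.log R) atTop atTop :=
            Real.tendsto_log_atTop.const_mul_atTop hε
          obtain ⟨R, h2, h3⟩ := ((h1.eventually_ge_atTop C).and
            (eventually_gt_atTop (max 1 ‖z‖))).exists
          exact ⟨R, (le_max_left _ _).trans_lt h3, (le_max_right _ _).trans_lt h3, h2⟩
        refine maxp hu (h := fun ζ => (1 + ε) * log⁺ ‖ζ‖) (continuous_const.mul cont_pl)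
          (K := Metric.closedBall 0 R ∩ {ζ | 1 ≤ ‖ζ‖})
          (G := Metric.ball 0 R ∩ {ζ | 1 < ‖ζ‖})
          ((isCompact_closedBall _ _).inter_right (isClosed_le continuous_const continuous_norm))
          (Metric.isOpen_ball.inter (isOpen_lt continuous_const continuous_norm)) ?_ ?_ ?_ z
          ⟨by simpa using hR2.le, hz1.le⟩
        · rintro ζ ⟨h1, h2⟩
          have h2' : 1 < ‖ζ‖ := h2
          exact ⟨Metric.ball_subset_closedBall h1, h2'.le⟩
        · rintro ζ ⟨h1, h2⟩
          have h2' : 1 < ‖ζ‖ := h2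
          refine ⟨‖ζ‖ - 1, by linarith, fun r hr0 hr => ?_⟩
          have e1 : Real.circleAverage (fun x : ℂ => (1 + ε) * log⁺ ‖x‖) ζ r =
              (1 + ε) * Real.circleAverage (fun x : ℂ => log⁺ ‖x‖) ζ r :=
            circleAverage_fun_smul (a := (1 + ε)) (f := fun x : ℂ => log⁺ ‖x‖)
          have e2 : Real.circleAverage (fun x : ℂ => log⁺ ‖x‖) ζ r =
              Real.circleAverage (fun x : ℂ => Real.log ‖x‖) ζ r := by
            refine circleAverage_congr_sphere fun x hx => ?_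
            rw [abs_of_pos hr0, mem_sphere_iff_norm] at hx
            refine hpl x ?_
            have : ‖ζ‖ ≤ ‖x‖ + ‖x - ζ‖ := by
              have h4 := norm_sub_le x (x - ζ)
              rw [sub_sub_cancel] at h4
              exact h4
            linarith
          rw [e1, e2, mean_log ζ hr0, hpl ζ h2'.le]
          have e3 : log⁺ (r⁻¹ * ‖ζ‖) = Real.log (r⁻¹ * ‖ζ‖) := by
            refine Real.posLog_eq_log ?_
            rw [abs_of_nonneg (by positivity), inv_mul_eq_div, le_div_iff₀ hr0]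
            linarith
          rw [e3, Real.log_mul (inv_ne_zero hr0.ne') (by linarith), Real.log_inv]
          ring
        · rintro ζ ⟨h1, h2⟩ h3
          rw [mem_closedBall_zero_iff] at h1
          by_cases h4 : ‖ζ‖ = 1
          · have h5 := h0 ζ (by rw [mem_sphere_zero_iff_norm]; exact h4)
            refine h5.trans ?_
            rw [h4]
            simp
          · have h5 : 1 < ‖ζ‖ := lt_of_le_of_ne h2 (Ne.symm h4)
            have h6 : ‖ζ‖ = R := by
              refine le_antisymm h1 (not_lt.1 fun h7 => h3 ⟨?_, h5⟩)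
              rw [mem_ball_zero_iff]
              exact h7
            refine (hC ζ).trans ?_
            rw [EReal.coe_le_coe_iff, hpl ζ h2, h6]
            linarith
      by_contra hcon
      obtain ⟨c, hc1, hc2⟩ := EReal.lt_iff_exists_real_btwn.1 (not_le.1 hcon)
      rw [EReal.coe_lt_coe_iff] at hc1
      have h1 := key ((c - log⁺ ‖z‖) / log⁺ ‖z‖) (div_pos (by linarith) hpos)
      have h2 : (1 + (c - log⁺ ‖z‖) / log⁺ ‖z‖) * log⁺ ‖z‖ = c := by
        field_simp
        ring
      rw [h2] at h1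
      exact absurd hc2 (not_lt.2 h1)
  · refine le_iSup₂_of_le (fun z => ((log⁺ ‖z‖ : ℝ) : EReal)) ⟨sh_posLog, ⟨0, fun ζ => ?_⟩,
      fun ζ hζ => ?_⟩ le_rfl
    · rw [add_zero]
    · rw [mem_sphere_zero_iff_norm] at hζ
      show ((log⁺ ‖ζ‖ : ℝ) : EReal) ≤ 0
      rw [hζ]
      simp

end Pool.Agent.Q166.BM
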